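import Pool.Agent.K1H69.CM.Asm
import Pool.Agent.K1H69.CM.Iff
import Pool.Agent.K1H69.CM.RUD
import Pool.Agent.K1H69.CM.HF
import Pool.Agent.K1H69.CM.LEV
import Pool.Agent.K1H69.CM.DFN
import Pool.Agent.K1H69.CM.FAM
import Pool.Agent.K1H69.CM.COL
import Pool.Agent.K1H69.CM.VAL
import Pool.Agent.K1H69.CM.PLY
import Pool.Agent.K1H69.CM.JOIN
import Pool.Agent.K1H69.CM.CONE
import Pool.Agent.K1H69.CM.FILT
import Pool.Agent.K1H69.CM.MEM

/-!
# `ω₁` in `C²(ω)` and the determinacy of games definable in `L²_ω`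

`V` is `ZFSet.{u}`; the definitions (formulas of `L²_ω`, their truth, the hierarchy `J'_α` with the truth class `Tr`,
`C²(ω)`, the games) are in `Pool.Agent.K1H69.CM.Def`. In ZFC there is a filter `U ∈ C²(ω)` on `ω₁^V`, which is
`ω₁^V`-complete in `C²(ω)` and contains only unbounded sets, and there are a level `J'_{ων}` and ONE formula `φ` of
`L²_ω` such that for the subsets `X` of `ω₁` in `C²(ω)`: `U` decides `X` if and only if the game with payoff
`{(x, y) | (J'_{ων}, ∈, Tr) ⊨ φ (X, x, y)}` is determined. So `U` is a measure in `C²(ω)` if and only if all these games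
are determined, which is the case if all `L²_ω`-definable games over the levels of the hierarchy are determined.
-/

set_option autoImplicit false

universe u

namespace Pool.Agent.Results.MP_b724db_lc.ConeMeasure

open Ordinal ZFSet
open Pool.Agent.K1H69.CM

theorem result :
    ∃ (ν : Ordinal.{u}) (φ : Fml) (U : ZFSet.{u}), 0 < ν ∧ IsFilter U ∧
      (∀ X ∈ (C2 : Set ZFSet.{u}), X ⊆ Om → (∀ a ∈ [X, V_ (ω : Ordinal.{u}), om, Om], a ∈ J ν) ∧
        (Determined (Pay (J ν) (Tr ν) φ [X, V_ (ω : Ordinal.{u}), om, Om]) ↔ (X ∈ U ∨ Om \ X ∈ U))) ∧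
      (IsMeasure U ↔ ∀ X ∈ (C2 : Set ZFSet.{u}), X ⊆ Om →
        Determined (Pay (J ν) (Tr ν) φ [X, V_ (ω : Ordinal.{u}), om, Om])) ∧
      (L2Det.{u} → IsMeasure U) := by
  have hL : S_LEV.{u} := t_LEV t_RUD (t_HF t_RUD)
  have hV : S_VAL.{u} := t_VAL t_FAM t_COL
  have hOut : ∀ M : ZFSet.{u}, Base M → ∀ y : ℕ → V_ (ω : Ordinal.{u}),
      Out M (b2 (gr y)) (b2 (gr y)) Pool.Agent.K1H69.CM.Om := by
    intro M hM y
    obtain ⟨γ, hγ, -, h⟩ := hV M hM (gr y) (gr y) (run_gr hM y).2.2 (run_gr hM y).2.2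
    rw [h]
    exact hγ
  obtain ⟨ν, φ, U, hν, hU, h1, h2⟩ := main t_DEF (t_CONE t_PLY hV) (fun M hM X h => determined_of_inU hV hM X h) hL
    (t_FILT t_JOIN t_COD hV) (t_SUP (t_HF t_RUD) hL) (t_MEM t_DEF hL) hOut
  refine ⟨ν, φ, U, hν, hU, h1, h2, fun hdet => ?_⟩
  rw [h2]
  intro X hX hXs
  exact hdet ν hν φ _ (h1 X hX hXs).1

end Pool.Agent.Results.MP_b724db_lc.ConeMeasure
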